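import Mathlib

/-!
# MP_680d10_gt: diagonals of separately absolutely continuous maps into metric spaces
-/

set_option autoImplicit false

open Set Topology Filter

universe u

namespace Pool.Agent.Results.MP_680d10_gt.DiagonalAbsBaireOne

/-- absolutely continuous maps of the unit interval into a metric space -/
def AbsCont {Z : Type u} [MetricSpace Z] (h : unitInterval → Z) : Prop :=
  ∀ ε : ℝ, 0 < ε → ∃ δ : ℝ, 0 < δ ∧ ∀ (n : ℕ) (a b : Fin n → unitInterval),
    (∀ k, a k < b k) → (∀ k l, k < l → b k ≤ a l) →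
    ∑ k, ((b k : ℝ) - (a k : ℝ)) < δ → ∑ k, dist (h (b k)) (h (a k)) < ε

/-- separately absolutely continuous maps of the unit square into a metric space -/
def SepAbsCont {Z : Type u} [MetricSpace Z] (f : unitInterval → unitInterval → Z) : Prop :=
  (∀ y, AbsCont fun x => f x y) ∧ ∀ x, AbsCont fun y => f x y

/-- absolute Baire-one maps -/
def AbsBaireOne {Z : Type u} [MetricSpace Z] (g : unitInterval → Z) : Prop :=
  ∃ G : ℕ → unitInterval → Z, (∀ n, Continuous (G n)) ∧
    (∀ x, Tendsto (fun n => G n x) atTop (𝓝 (g x))) ∧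
    ∀ x, Summable fun n => dist (G (n + 1) x) (G n x)

variable {Z : Type u} [MetricSpace Z]

theorem AbsCont.dist_lt {h : unitInterval → Z} (hh : AbsCont h) {ε : ℝ} (hε : 0 < ε) :
    ∃ δ : ℝ, 0 < δ ∧ ∀ a b : unitInterval, a < b → (b : ℝ) - a < δ → dist (h b) (h a) < ε := by
  obtain ⟨δ, hδ, H⟩ := hh ε hε
  refine ⟨δ, hδ, fun a b hab h1 => ?_⟩
  have := H 1 (fun _ => a) (fun _ => b) (fun _ => hab)
    (fun k l hkl => absurd hkl (by rw [Subsingleton.elim k l]; exact lt_irrefl _)) (by simpa using h1)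
  simpa using this

theorem AbsCont.continuous {h : unitInterval → Z} (hh : AbsCont h) : Continuous h := by
  rw [Metric.continuous_iff]
  intro b ε hε
  obtain ⟨δ, hδ, H⟩ := hh.dist_lt hε
  refine ⟨δ, hδ, fun a ha => ?_⟩
  rw [Subtype.dist_eq, Real.dist_eq] at ha
  have ha' := abs_lt.mp ha
  rcases lt_trichotomy a b with hab | hab | hab
  · rw [dist_comm]
    exact H a b hab (by linarith)
  · rw [hab, dist_self]; exact hε
  · exact H b a hab (by linarith)

/-- along a monotone sequence, the increments of an absolutely continuous map are summable -/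
theorem AbsCont.summable {h : unitInterval → Z} (hh : AbsCont h) {s : ℕ → unitInterval} (hs : Monotone s) :
    Summable fun n => dist (h (s (n + 1))) (h (s n)) := by
  classical
  obtain ⟨δ, hδ, H⟩ := hh 1 one_pos
  -- the sequence is Cauchy
  have hmono : Monotone fun n => (s n : ℝ) := fun a b hab => hs hab
  have hbdd : BddAbove (range fun n => (s n : ℝ)) := ⟨1, by rintro _ ⟨n, rfl⟩; exact (s n).2.2⟩
  have hlim := tendsto_atTop_ciSup hmono hbdd
  obtain ⟨N, hN⟩ := (hlim.eventually (lt_mem_nhds (show (⨆ n, (s n : ℝ)) - δ < ⨆ n, (s n : ℝ) by linarith))).exists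
  have hle : ∀ n, (s n : ℝ) ≤ ⨆ n, (s n : ℝ) := fun n => le_ciSup hbdd n
  rw [← summable_nat_add_iff N]
  refine summable_of_sum_range_le (c := 1) (fun n => dist_nonneg) fun m => ?_
  -- the strict increments
  let t : ℕ → unitInterval := fun n => s (n + N)
  have ht : Monotone t := fun a b hab => hs (by omega)
  let T : Finset ℕ := (Finset.range m).filter fun i => t i < t (i + 1)
  have hsum : ∑ i ∈ Finset.range m, dist (h (t (i + 1))) (h (t i)) = ∑ i ∈ T, dist (h (t (i + 1))) (h (t i)) := by
    rw [Finset.sum_filter]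
    refine Finset.sum_congr rfl fun i _ => ?_
    split_ifs with hi
    · rfl
    · have : t i = t (i + 1) := le_antisymm (ht (Nat.le_succ i)) (not_lt.mp hi)
      rw [this, dist_self]
  have h1 : ∀ n, n + 1 + N = n + N + 1 := fun n => by omega
  have hgoal : ∑ i ∈ Finset.range m, dist (h (s (i + N + 1))) (h (s (i + N))) =
      ∑ i ∈ Finset.range m, dist (h (t (i + 1))) (h (t i)) := by
    refine Finset.sum_congr rfl fun i _ => ?_
    simp only [t, h1]
  rw [hgoal, hsum]
  let e := T.orderEmbOfFin (rfl : T.card = T.card)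
  have hsumT : ∀ φ : ℕ → ℝ, ∑ i ∈ T, φ i = ∑ k, φ (e k) := by
    intro φ
    have himg : T = Finset.univ.map e.toEmbedding := by
      ext i
      simp only [Finset.mem_map, Finset.mem_univ, true_and, e]
      constructor
      · intro hi
        have : i ∈ (T : Set ℕ) := hi
        rw [← Finset.range_orderEmbOfFin T rfl] at this
        obtain ⟨k, hk⟩ := this
        exact ⟨k, hk⟩
      · rintro ⟨k, rfl⟩
        exact Finset.orderEmbOfFin_mem T rfl k
    conv_lhs => rw [himg]
    rw [Finset.sum_map]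
    rfl
  rw [hsumT (fun i => dist (h (t (i + 1))) (h (t i)))]
  refine (H T.card (fun k => t (e k)) (fun k => t (e k + 1)) (fun k => ?_) (fun k l hkl => ?_) ?_).le
  · exact (Finset.mem_filter.mp (Finset.orderEmbOfFin_mem T rfl k)).2
  · exact ht (Nat.succ_le_of_lt (e.lt_iff_lt.mpr hkl))
  · rw [← hsumT (fun i => ((t (i + 1) : ℝ) - (t i : ℝ)))]
    have hsub : ∑ i ∈ T, ((t (i + 1) : ℝ) - (t i : ℝ)) ≤ ∑ i ∈ Finset.range m, ((t (i + 1) : ℝ) - (t i : ℝ)) :=
      Finset.sum_le_sum_of_subset_of_nonneg (Finset.filter_subset _ _)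
        fun i _ _ => sub_nonneg.mpr (ht (Nat.le_succ i))
    have htel : ∑ i ∈ Finset.range m, ((t (i + 1) : ℝ) - (t i : ℝ)) = t m - t 0 :=
      Finset.sum_range_sub (fun i => (t i : ℝ)) m
    have h2 : (t m : ℝ) ≤ ⨆ n, (s n : ℝ) := hle _
    have h3 : (⨆ n, (s n : ℝ)) - δ < t 0 := by
      have : t 0 = s N := by simp [t]
      rw [this]; exact hN
    linarith

/-- the points at which the sections are equicontinuous -/
def UPt (f : unitInterval → unitInterval → Z) (b : unitInterval) : Prop :=
  ∀ ε : ℝ, 0 < ε → ∀ᶠ y in 𝓝 b, ∀ s, dist (f s y) (f s b) ≤ ε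

theorem dense_UPt {f : unitInterval → unitInterval → Z} (h1 : ∀ y, Continuous fun x => f x y)
    (h2 : ∀ x, Continuous fun y => f x y) : Dense {b | UPt f b} := by
  let F : ℕ → ℕ → Set unitInterval := fun k m =>
    {y | ∀ s s', dist s s' ≤ 1 / ((m : ℝ) + 1) → dist (f s y) (f s' y) ≤ 1 / ((k : ℝ) + 1)}
  have hFc : ∀ k m, IsClosed (F k m) := by
    intro k m
    have : F k m = ⋂ s, ⋂ s', ⋂ (_ : dist s s' ≤ 1 / ((m : ℝ) + 1)), {y | dist (f s y) (f s' y) ≤ 1 / ((k : ℝ) + 1)} := by
      ext y
      simp only [F, mem_ofPred_eq, mem_iInter]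
    rw [this]
    exact isClosed_iInter fun s => isClosed_iInter fun s' => isClosed_iInter fun _ =>
      isClosed_le ((h2 s).dist (h2 s')) continuous_const
  have hFu : ∀ k, ⋃ m, F k m = univ := by
    intro k
    refine eq_univ_of_forall fun y => mem_iUnion.mpr ?_
    have huc : UniformContinuous fun x => f x y := CompactSpace.uniformContinuous_of_continuous (h1 y)
    rw [Metric.uniformContinuous_iff] at huc
    obtain ⟨δ, hδ, H⟩ := huc (1 / ((k : ℝ) + 1)) (by positivity)
    obtain ⟨m, hm⟩ := exists_nat_one_div_lt hδ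
    exact ⟨m, fun s s' hss => (H (lt_of_le_of_lt hss hm)).le⟩
  have hO : ∀ k, Dense (⋃ m, interior (F k m)) := fun k => dense_iUnion_interior_of_closed (hFc k) (hFu k)
  have hD := dense_iInter_of_isOpen_nat (fun k => isOpen_iUnion fun m => isOpen_interior (s := F k m)) hO
  refine hD.mono ?_
  intro b hb ε hε
  obtain ⟨k, hk⟩ := exists_nat_one_div_lt (show 0 < ε / 3 by positivity)
  obtain ⟨m, hm⟩ := mem_iUnion.mp (mem_iInter.mp hb k)
  have key := isCompact_univ.eventually_forall_of_forall_eventually (x₀ := b)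
    (P := fun (y s : unitInterval) => dist (f s y) (f s b) ≤ ε) (K := univ) (by
      intro s0 _
      have e1 : ∀ᶠ z : unitInterval × unitInterval in 𝓝 (b, s0), z.1 ∈ interior (F k m) :=
        continuous_fst.continuousAt (isOpen_interior.mem_nhds hm)
      have e2 : ∀ᶠ z : unitInterval × unitInterval in 𝓝 (b, s0), dist z.2 s0 < 1 / ((m : ℝ) + 1) :=
        (continuous_snd.tendsto (b, s0)).eventually (Metric.ball_mem_nhds s0 (by positivity))
      have e3 : ∀ᶠ z : unitInterval × unitInterval in 𝓝 (b, s0), dist (f s0 z.1) (f s0 b) < ε / 3 := by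
        have : Tendsto (fun z : unitInterval × unitInterval => f s0 z.1) (𝓝 (b, s0)) (𝓝 (f s0 b)) :=
          ((h2 s0).comp continuous_fst).tendsto (b, s0)
        exact this (Metric.ball_mem_nhds _ (by positivity))
      filter_upwards [e1, e2, e3] with z hz1 hz2 hz3
      have q1 : dist (f z.2 z.1) (f s0 z.1) ≤ 1 / ((k : ℝ) + 1) := interior_subset hz1 _ _ hz2.le
      have q2 : dist (f s0 b) (f z.2 b) ≤ 1 / ((k : ℝ) + 1) :=
        interior_subset hm _ _ (by rw [dist_comm]; exact hz2.le)
      calc dist (f z.2 z.1) (f z.2 b) ≤ dist (f z.2 z.1) (f s0 z.1) + dist (f s0 z.1) (f s0 b) + dist (f s0 b) (f z.2 b) :=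
            dist_triangle4 _ _ _ _
        _ ≤ ε := by linarith)
  exact key.mono fun y hy s => hy s (mem_univ s)

/-! ### the staircases -/

/-- the step at `b` -/
noncomputable def r (b δ x : ℝ) : ℝ := b * max 0 (min 1 ((x - b) / δ))

/-- the supremum of the first steps -/
noncomputable def S (b : ℕ → ℝ) : ℕ → ℝ → ℝ → ℝ
  | 0, _, _ => 0
  | j + 1, δ, x => max (S b j δ x) (r (b j) δ x)

/-- the tent right of `b` -/
noncomputable def tent (b δ x : ℝ) : ℝ := max 0 (δ - |x - b - δ|)

/-- the second coordinate -/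
noncomputable def Y (b : ℕ → ℝ) (n : ℕ) (δ x : ℝ) : ℝ := x - ∑ j ∈ Finset.range n, tent (b j) δ x

theorem r_continuous (b δ : ℝ) : Continuous (r b δ) := by
  unfold r
  exact continuous_const.mul (continuous_const.max (continuous_const.min ((continuous_id.sub continuous_const).div_const δ)))

theorem S_continuous (b : ℕ → ℝ) (j : ℕ) (δ : ℝ) : Continuous (S b j δ) := by
  induction j with
  | zero => exact continuous_const
  | succ j ih => exact ih.max (r_continuous _ _)

theorem Y_continuous (b : ℕ → ℝ) (n : ℕ) (δ : ℝ) : Continuous (Y b n δ) := by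
  unfold Y tent
  refine continuous_id.sub (continuous_finset_sum _ fun j _ => ?_)
  exact continuous_const.max (continuous_const.sub ((continuous_id.sub continuous_const).sub continuous_const).abs)

theorem r_of_le {b δ x : ℝ} (hδ : 0 < δ) (h : x ≤ b) : r b δ x = 0 := by
  unfold r
  have : (x - b) / δ ≤ 0 := div_nonpos_of_nonpos_of_nonneg (by linarith) hδ.le
  rw [max_eq_left ((min_le_right _ _).trans this), mul_zero]

theorem r_of_ge {b δ x : ℝ} (hδ : 0 < δ) (h : b + δ ≤ x) : r b δ x = b := by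
  unfold r
  have : 1 ≤ (x - b) / δ := by rw [le_div_iff₀ hδ]; linarith
  rw [min_eq_left this, max_eq_right zero_le_one, mul_one]

theorem r_le {b δ x : ℝ} (hb : 0 ≤ b) (hδ : 0 < δ) (hx : 0 ≤ x) : r b δ x ≤ x := by
  rcases le_total x b with h | h
  · rw [r_of_le hδ h]; exact hx
  · unfold r
    have : max 0 (min 1 ((x - b) / δ)) ≤ 1 := max_le zero_le_one (min_le_left _ _)
    calc b * max 0 (min 1 ((x - b) / δ)) ≤ b * 1 := mul_le_mul_of_nonneg_left this hb
      _ ≤ x := by linarith

theorem r_anti {b δ δ' x : ℝ} (hb : 0 ≤ b) (hδ' : 0 < δ') (h : δ' ≤ δ) : r b δ x ≤ r b δ' x := by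
  have hδ : 0 < δ := lt_of_lt_of_le hδ' h
  rcases le_total x b with hx | hx
  · rw [r_of_le hδ hx, r_of_le hδ' hx]
  · unfold r
    refine mul_le_mul_of_nonneg_left (max_le_max le_rfl (min_le_min le_rfl ?_)) hb
    exact div_le_div_of_nonneg_left (by linarith) hδ' h

theorem S_nonneg (b : ℕ → ℝ) (j : ℕ) (δ x : ℝ) : 0 ≤ S b j δ x := by
  induction j with
  | zero => exact le_rfl
  | succ j ih => exact ih.trans (le_max_left _ _)

theorem S_le {b : ℕ → ℝ} (hb : ∀ j, 0 ≤ b j) (j : ℕ) {δ x : ℝ} (hδ : 0 < δ) (hx : 0 ≤ x) : S b j δ x ≤ x := by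
  induction j with
  | zero => exact hx
  | succ j ih => exact max_le ih (r_le (hb j) hδ hx)

theorem S_anti {b : ℕ → ℝ} (hb : ∀ j, 0 ≤ b j) (j : ℕ) {δ δ' x : ℝ} (hδ' : 0 < δ') (h : δ' ≤ δ) :
    S b j δ x ≤ S b j δ' x := by
  induction j with
  | zero => exact le_rfl
  | succ j ih => exact max_le_max ih (r_anti (hb j) hδ' h)

theorem le_S {b : ℕ → ℝ} {i j : ℕ} (hij : i < j) {δ x : ℝ} (hδ : 0 < δ) (h : b i + δ ≤ x) : b i ≤ S b j δ x := by
  induction j with
  | zero => omega
  | succ j ih =>
    rcases Nat.lt_succ_iff_lt_or_eq.mp hij with h1 | h1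
    · exact (ih h1).trans (le_max_left _ _)
    · subst h1
      calc b i = r (b i) δ x := (r_of_ge hδ h).symm
        _ ≤ _ := le_max_right _ _

theorem S_loc (b : ℕ → ℝ) (j : ℕ) {δ x : ℝ} (hδ : 0 < δ) (h : ∀ i, i < j → x < b i ∨ b i + δ < x) :
    ∀ᶠ x' in 𝓝 x, S b j δ x' = S b j δ x := by
  induction j with
  | zero => exact Eventually.of_forall fun _ => rfl
  | succ j ih =>
    have h1 := ih fun i hi => h i (by omega)
    have h2 : ∀ᶠ x' in 𝓝 x, r (b j) δ x' = r (b j) δ x := by
      rcases h j (Nat.lt_succ_self j) with hj | hj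
      · filter_upwards [gt_mem_nhds hj] with x' hx'
        rw [r_of_le hδ hx'.le, r_of_le hδ hj.le]
      · filter_upwards [lt_mem_nhds hj] with x' hx'
        rw [r_of_ge hδ hx'.le, r_of_ge hδ hj.le]
    filter_upwards [h1, h2] with x' hx1 hx2
    change max (S b j δ x') (r (b j) δ x') = max (S b j δ x) (r (b j) δ x)
    rw [hx1, hx2]

theorem tent_zero {b δ x : ℝ} (h : x ≤ b ∨ b + 2 * δ ≤ x) : tent b δ x = 0 := by
  unfold tent
  apply max_eq_left
  rcases h with h | h
  · have := neg_abs_le (x - b - δ)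
    linarith
  · have := le_abs_self (x - b - δ)
    linarith

theorem tent_nonneg (b δ x : ℝ) : 0 ≤ tent b δ x := le_max_left _ _

theorem tent_le {b δ x : ℝ} (h : b ≤ x) : tent b δ x ≤ x - b := by
  unfold tent
  refine max_le (by linarith) ?_
  have := neg_abs_le (x - b - δ)
  linarith

theorem tent_eq {b δ x : ℝ} (h : b ≤ x) (h' : x ≤ b + δ) : tent b δ x = x - b := by
  unfold tent
  rw [abs_of_nonpos (by linarith), max_eq_right (by linarith)]
  ring

theorem Y_window {b : ℕ → ℝ} {n : ℕ} {δ x : ℝ} (hsep : ∀ i j, i < n → j < n → i ≠ j → 2 * δ < |b i - b j|)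
    {j : ℕ} (hj : j < n) (h1 : b j ≤ x) (h2 : x ≤ b j + 2 * δ) : Y b n δ x = x - tent (b j) δ x := by
  unfold Y
  congr 1
  refine Finset.sum_eq_single j (fun i hi hij => ?_) (fun h => absurd (Finset.mem_range.mpr hj) h)
  apply tent_zero
  have := hsep i j (Finset.mem_range.mp hi) hj hij
  rcases lt_abs.mp this with h | h
  · left; linarith
  · right; linarith

theorem Y_out {b : ℕ → ℝ} {n : ℕ} {δ x : ℝ} (h : ∀ j, j < n → x ≤ b j ∨ b j + 2 * δ ≤ x) : Y b n δ x = x := by
  unfold Y
  rw [Finset.sum_eq_zero fun j hj => tent_zero (h j (Finset.mem_range.mp hj)), sub_zero]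

/-- The diagonal of a separately absolutely continuous map of the unit square into an arbitrary
metric space is an absolute Baire-one map. -/
theorem result : ∀ (Z : Type u) [MetricSpace Z] (f : unitInterval → unitInterval → Z),
    SepAbsCont f → AbsBaireOne fun x => f x x := by
  classical
  intro Z _ f hf
  have hf1 : ∀ y, Continuous fun x => f x y := fun y => (hf.1 y).continuous
  have hf2 : ∀ x, Continuous fun y => f x y := fun x => (hf.2 x).continuous
  obtain ⟨t, htU, htc, htd⟩ := (dense_UPt hf1 hf2).exists_countable_dense_subset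
  have htinf : t.Infinite := by
    intro hfin
    have h1 : t = univ := by
      have := htd.closure_eq
      rwa [hfin.isClosed.closure_eq] at this
    rw [h1] at hfin
    have h2 : (Icc (0 : ℝ) 1).Finite := by
      have := hfin.image (Subtype.val : unitInterval → ℝ)
      rwa [image_univ, Subtype.range_coe] at this
    exact (Icc_infinite (zero_lt_one' ℝ)) h2
  haveI : Countable t := htc.to_subtype
  haveI : Infinite t := htinf.to_subtype
  obtain ⟨d⟩ := nonempty_denumerable t
  let β : ℕ → unitInterval := fun j => ((Denumerable.eqv t).symm j : unitInterval)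
  have hβU : ∀ j, UPt f (β j) := fun j => htU ((Denumerable.eqv t).symm j).2
  have hβinj : Function.Injective β := Subtype.val_injective.comp (Denumerable.eqv t).symm.injective
  have hβd : ∀ V : Set unitInterval, IsOpen V → V.Nonempty → ∃ j, β j ∈ V := by
    intro V hV hVn
    obtain ⟨z, hzV, hzt⟩ := htd.inter_open_nonempty V hV hVn
    refine ⟨Denumerable.eqv t ⟨z, hzt⟩, ?_⟩
    simp only [β, Equiv.symm_apply_apply]
    exact hzV
  let b : ℕ → ℝ := fun j => (β j : ℝ)
  have hb0 : ∀ j, 0 ≤ b j := fun j => (β j).2.1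
  -- the small numbers
  have hδ' : ∀ n : ℕ, ∃ δ : ℝ, 0 < δ ∧ δ ≤ 1 / ((n : ℝ) + 1) ∧
      (∀ i j, i < n → j < n → i ≠ j → 2 * δ < |b i - b j|) ∧
      ∀ j, j < n → ∀ s y : unitInterval, |(y : ℝ) - b j| ≤ 2 * δ → dist (f s y) (f s (β j)) ≤ (1 / 2) ^ n := by
    intro n
    have e0 : ∀ᶠ δ : ℝ in 𝓝[>] 0, δ ≤ 1 / ((n : ℝ) + 1) := by
      have : ∀ᶠ δ : ℝ in 𝓝 0, δ < 1 / ((n : ℝ) + 1) := gt_mem_nhds (by positivity)
      exact (this.filter_mono nhdsWithin_le_nhds).mono fun δ h => h.le
    have e1 : ∀ᶠ δ : ℝ in 𝓝[>] 0, ∀ i ∈ Finset.range n, ∀ j ∈ Finset.range n, i ≠ j → 2 * δ < |b i - b j| := by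
      rw [Finset.eventually_all]
      intro i _
      rw [Finset.eventually_all]
      intro j _
      by_cases hij : i = j
      · exact Eventually.of_forall fun δ h => absurd hij h
      · have hpos : 0 < |b i - b j| := abs_pos.mpr (sub_ne_zero.mpr fun h => hij (hβinj (Subtype.ext h)))
        have : ∀ᶠ δ : ℝ in 𝓝 0, δ < |b i - b j| / 2 := gt_mem_nhds (by positivity)
        exact (this.filter_mono nhdsWithin_le_nhds).mono fun δ h _ => by linarith
    have e2 : ∀ᶠ δ : ℝ in 𝓝[>] 0, ∀ j ∈ Finset.range n, ∀ s y : unitInterval, |(y : ℝ) - b j| ≤ 2 * δ →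
        dist (f s y) (f s (β j)) ≤ (1 / 2) ^ n := by
      rw [Finset.eventually_all]
      intro j _
      obtain ⟨η, hη, H⟩ := Metric.eventually_nhds_iff.mp (hβU j ((1 / 2) ^ n) (by positivity))
      have : ∀ᶠ δ : ℝ in 𝓝 0, δ < η / 2 := gt_mem_nhds (by positivity)
      refine (this.filter_mono nhdsWithin_le_nhds).mono fun δ h s y hy => H ?_ s
      rw [Subtype.dist_eq, Real.dist_eq]
      exact lt_of_le_of_lt hy (by linarith)
    obtain ⟨δ, ⟨⟨h0, h1⟩, h2⟩, h3⟩ := (((e0.and e1).and e2).and self_mem_nhdsWithin).exists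
    exact ⟨δ, h3, h0, fun i j hi hj => h1 i (Finset.mem_range.mpr hi) j (Finset.mem_range.mpr hj),
      fun j hj => h2 j (Finset.mem_range.mpr hj)⟩
  choose δ' hδ'0 hδ'1 hδ'2 hδ'3 using hδ'
  let δ : ℕ → ℝ := fun n => (Finset.range (n + 1)).inf' ⟨0, by simp⟩ δ'
  have hδ0 : ∀ n, 0 < δ n := by
    intro n
    rw [Finset.lt_inf'_iff]
    exact fun k _ => hδ'0 k
  have hδle : ∀ n, δ n ≤ δ' n := fun n => Finset.inf'_le _ (by simp)
  have hδanti : ∀ n, δ (n + 1) ≤ δ n := fun n =>
    Finset.inf'_mono _ (Finset.range_subset_range.mpr (by omega)) _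
  have hsep : ∀ n i j, i < n → j < n → i ≠ j → 2 * δ n < |b i - b j| := fun n i j hi hj hij =>
    lt_of_le_of_lt (by linarith [hδle n]) (hδ'2 n i j hi hj hij)
  have hunif : ∀ n j, j < n → ∀ s y : unitInterval, |(y : ℝ) - b j| ≤ 2 * δ n →
      dist (f s y) (f s (β j)) ≤ (1 / 2) ^ n := fun n j hj s y hy =>
    hδ'3 n j hj s y (hy.trans (by linarith [hδle n]))
  have hδlim : Tendsto δ atTop (𝓝 0) := by
    refine squeeze_zero (fun n => (hδ0 n).le) (fun n => (hδle n).trans (hδ'1 n)) ?_
    exact tendsto_one_div_add_atTop_nhds_zero_nat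
  let P : ℝ → unitInterval := projIcc 0 1 zero_le_one
  have hP : Continuous P := continuous_projIcc
  have hPv : ∀ v : ℝ, 0 ≤ v → v ≤ 1 → ((P v : unitInterval) : ℝ) = v := fun v h0 h1 => by
    simp only [P, projIcc_of_mem zero_le_one (show v ∈ Icc (0 : ℝ) 1 from ⟨h0, h1⟩)]
  let sq : ℕ → ℝ → ℝ := fun n x => S b n (δ n) x
  have hsq_le : ∀ n (x : unitInterval), sq n x ≤ x := fun n x => S_le hb0 n (hδ0 n) x.2.1
  have hsq_nn : ∀ n (x : ℝ), 0 ≤ sq n x := fun n x => S_nonneg _ _ _ _
  have hsq_mono : ∀ x : ℝ, Monotone fun n => sq n x := fun x => monotone_nat_of_le_succ fun n =>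
    (S_anti hb0 n (hδ0 (n + 1)) (hδanti n)).trans (le_max_left _ _)
  have hsq_lim : ∀ x : unitInterval, Tendsto (fun n => sq n x) atTop (𝓝 (x : ℝ)) := by
    intro x
    rw [tendsto_order]
    constructor
    · intro c hc
      by_cases hx0 : (x : ℝ) = 0
      · exact Eventually.of_forall fun n => lt_of_lt_of_le (hx0 ▸ hc) (hsq_nn n x)
      · have hxpos : 0 < (x : ℝ) := lt_of_le_of_ne x.2.1 (Ne.symm hx0)
        let c' := max c 0
        have hc' : c' < x := max_lt hc hxpos
        obtain ⟨j, hj1, hj2⟩ := hβd {z : unitInterval | c' < z ∧ (z : ℝ) < x}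
          ((isOpen_lt continuous_const continuous_subtype_val).inter (isOpen_lt continuous_subtype_val continuous_const)) (by
            refine ⟨⟨(c' + x) / 2, ?_, ?_⟩, ?_, ?_⟩
            · have : 0 ≤ c' := le_max_right _ _
              linarith
            · have := x.2.2
              linarith
            · change c' < (c' + x) / 2
              linarith
            · change (c' + x) / 2 < (x : ℝ)
              linarith)
        have hjx : 0 < (x : ℝ) - b j := sub_pos.mpr hj2
        filter_upwards [hδlim.eventually (gt_mem_nhds hjx), eventually_gt_atTop j] with n hn1 hn2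
        calc c ≤ c' := le_max_left _ _
          _ < b j := hj1
          _ ≤ sq n x := le_S hn2 (hδ0 n) (by linarith)
    · intro c hc
      exact Eventually.of_forall fun n => lt_of_le_of_lt (hsq_le n x) hc
  -- the second coordinate
  let yq : ℕ → ℝ → ℝ := fun n x => Y b n (δ n) x
  have hyq : ∀ n (x : unitInterval), (0 ≤ yq n x ∧ yq n x ≤ 1) ∧
      ((∃ j, j < n ∧ b j ≤ yq n x ∧ yq n x ≤ x ∧ (x : ℝ) ≤ b j + 2 * δ n) ∨ yq n x = x) := by
    intro n x
    by_cases h : ∃ j, j < n ∧ b j ≤ x ∧ (x : ℝ) ≤ b j + 2 * δ n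
    · obtain ⟨j, hj, h1, h2⟩ := h
      have hY : yq n x = x - tent (b j) (δ n) x := Y_window (hsep n) hj h1 h2
      have t1 := tent_nonneg (b j) (δ n) x
      have t2 := tent_le (δ := δ n) h1
      have t3 := hb0 j
      have t4 := x.2.2
      exact ⟨⟨by linarith, by linarith⟩, Or.inl ⟨j, hj, by linarith, by linarith, h2⟩⟩
    · push Not at h
      have hY : yq n x = x := Y_out fun j hj => by
        by_cases h1 : b j ≤ x
        · exact Or.inr (h j hj h1).le
        · exact Or.inl (not_le.mp h1).le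
      exact ⟨⟨by rw [hY]; exact x.2.1, by rw [hY]; exact x.2.2⟩, Or.inr hY⟩
  let G : ℕ → unitInterval → Z := fun n x => f (P (sq n x)) (P (yq n x))
  have hsP : ∀ n (x : unitInterval), ((P (sq n x) : unitInterval) : ℝ) = sq n x := fun n x =>
    hPv _ (hsq_nn n x) ((hsq_le n x).trans x.2.2)
  have hyP : ∀ n (x : unitInterval), ((P (yq n x) : unitInterval) : ℝ) = yq n x := fun n x =>
    hPv _ (hyq n x).1.1 (hyq n x).1.2
  have hsc : ∀ n, Continuous fun x : unitInterval => P (sq n x) := fun n =>
    hP.comp ((S_continuous b n (δ n)).comp continuous_subtype_val)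
  have hyc : ∀ n, Continuous fun x : unitInterval => P (yq n x) := fun n =>
    hP.comp ((Y_continuous b n (δ n)).comp continuous_subtype_val)
  have hGd : ∀ n (x : unitInterval), dist (G n x) (f (P (sq n x)) x) ≤ 2 * (1 / 2) ^ n := by
    intro n x
    rcases (hyq n x).2 with ⟨j, hj, h1, h2, h3⟩ | h
    · have d1 := hunif n j hj (P (sq n x)) (P (yq n x)) (by
        rw [hyP, abs_of_nonneg (by linarith)]; linarith)
      have d2 := hunif n j hj (P (sq n x)) x (by
        rw [abs_of_nonneg (by linarith)]; linarith)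
      calc dist (G n x) (f (P (sq n x)) x) ≤ dist (G n x) (f (P (sq n x)) (β j)) + dist (f (P (sq n x)) x) (f (P (sq n x)) (β j)) :=
            dist_triangle_right _ _ _
        _ ≤ _ := by linarith
    · have : P (yq n x) = x := Subtype.ext (by rw [hyP, h])
      change dist (f (P (sq n x)) (P (yq n x))) (f (P (sq n x)) x) ≤ _
      rw [this, dist_self]
      positivity
  refine ⟨G, fun n => ?_, fun x => ?_, fun x => ?_⟩
  · rw [continuous_iff_continuousAt]
    intro x
    by_cases h : ∃ j, j < n ∧ b j ≤ x ∧ (x : ℝ) ≤ b j + δ n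
    · obtain ⟨j, hj, h1, h2⟩ := h
      have hδn := hδ0 n
      have hY : yq n x = b j := by
        have e1 : yq n x = x - tent (b j) (δ n) x := Y_window (hsep n) hj h1 (by linarith)
        rw [e1, tent_eq h1 h2]
        ring
      have hPY : P (yq n x) = β j := Subtype.ext (by rw [hyP, hY])
      -- joint continuity
      have hjc : ContinuousAt (fun z : unitInterval × unitInterval => f z.1 z.2) (P (sq n x), β j) := by
        rw [Metric.continuousAt_iff']
        intro ε hε
        have e1 : ∀ᶠ z : unitInterval × unitInterval in 𝓝 (P (sq n x), β j), ∀ s, dist (f s z.2) (f s (β j)) ≤ ε / 3 :=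
          (continuous_snd.tendsto (P (sq n x), β j)).eventually (hβU j (ε / 3) (by positivity))
        have e2 : ∀ᶠ z : unitInterval × unitInterval in 𝓝 (P (sq n x), β j),
            dist (f z.1 (β j)) (f (P (sq n x)) (β j)) < ε / 3 := by
          have : Tendsto (fun z : unitInterval × unitInterval => f z.1 (β j)) (𝓝 (P (sq n x), β j)) (𝓝 (f (P (sq n x)) (β j))) :=
            ((hf1 (β j)).comp continuous_fst).tendsto (P (sq n x), β j)
          exact this (Metric.ball_mem_nhds _ (by positivity))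
        filter_upwards [e1, e2] with z hz1 hz2
        calc dist (f z.1 z.2) (f (P (sq n x)) (β j)) ≤ dist (f z.1 z.2) (f z.1 (β j)) + dist (f z.1 (β j)) (f (P (sq n x)) (β j)) :=
              dist_triangle _ _ _
          _ < ε := by linarith [hz1 z.1]
      have hpair : ContinuousAt (fun x : unitInterval => (P (sq n x), P (yq n x))) x :=
        ((hsc n).prodMk (hyc n)).continuousAt
      have : ContinuousAt ((fun z : unitInterval × unitInterval => f z.1 z.2) ∘ fun x : unitInterval => (P (sq n x), P (yq n x))) x := by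
        apply ContinuousAt.comp _ hpair
        rw [hPY]
        exact hjc
      exact this
    · push Not at h
      have hloc := S_loc b n (δ := δ n) (x := (x : ℝ)) (hδ0 n) fun i hi => by
        by_cases h1 : b i ≤ x
        · exact Or.inr (h i hi h1)
        · exact Or.inl (not_le.mp h1)
      have hloc' : ∀ᶠ x' : unitInterval in 𝓝 x, sq n x' = sq n x :=
        continuous_subtype_val.continuousAt.eventually hloc
      have hcont : ContinuousAt (fun x' : unitInterval => f (P (sq n x)) (P (yq n x'))) x :=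
        ((hf2 (P (sq n x))).comp (hyc n)).continuousAt
      refine hcont.congr ?_
      filter_upwards [hloc'] with x' hx'
      change f (P (sq n x)) (P (yq n x')) = f (P (sq n x')) (P (yq n x'))
      rw [hx']
  · have h1 : Tendsto (fun n => f (P (sq n x)) x) atTop (𝓝 (f x x)) := by
      have h2 : Tendsto (fun n => P (sq n x)) atTop (𝓝 x) := by
        have := (hP.tendsto (x : ℝ)).comp (hsq_lim x)
        have hx : P (x : ℝ) = x := projIcc_val zero_le_one x
        rw [hx] at this
        exact this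
      exact ((hf1 x).tendsto x).comp h2
    refine h1.congr_dist ?_
    have hz := (tendsto_pow_atTop_nhds_zero_of_lt_one (r := (1 / 2 : ℝ)) (by norm_num) (by norm_num)).const_mul 2
    rw [mul_zero] at hz
    refine squeeze_zero (fun n => dist_nonneg) (fun n => ?_) hz
    rw [dist_comm]
    exact hGd n x
  · have hsum1 : Summable fun n => dist (f (P (sq (n + 1) x)) x) (f (P (sq n x)) x) := by
      have hmono : Monotone fun n => P (sq n x) := fun a c hac => (monotone_projIcc zero_le_one) (hsq_mono x hac)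
      exact (hf.1 x).summable hmono
    have hgeo : Summable fun n : ℕ => (2 : ℝ) * (1 / 2) ^ n := (summable_geometric_of_lt_one (by norm_num) (by norm_num)).mul_left 2
    have hgeo' : Summable fun n : ℕ => (2 : ℝ) * (1 / 2) ^ (n + 1) := (summable_nat_add_iff 1).mpr hgeo
    refine Summable.of_nonneg_of_le (fun n => dist_nonneg) (fun n => ?_) ((hgeo'.add hsum1).add hgeo)
    calc dist (G (n + 1) x) (G n x) ≤ dist (G (n + 1) x) (f (P (sq (n + 1) x)) x) +
          dist (f (P (sq (n + 1) x)) x) (f (P (sq n x)) x) + dist (f (P (sq n x)) x) (G n x) := dist_triangle4 _ _ _ _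
      _ ≤ _ := by
        have h1 := hGd (n + 1) x
        have h2 := hGd n x
        rw [dist_comm] at h2
        exact add_le_add (add_le_add h1 le_rfl) h2

end Pool.Agent.Results.MP_680d10_gt.DiagonalAbsBaireOne
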